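import Pool.Agent.MWLE.StmtsA

/-! # Row WXY of block MWLE -/

namespace Pool.Agent.MWLE.H30

open Pool.Agent.Helper14_MV Pool.Agent.Helper2_MV
open Pool.Agent.MWK (pre Gw)
open Pool.Agent.MWF (Ap gaml dbl)
open Pool.Agent.MWGN (nn Gz E0 P0 A0 Tau gh)
open Pool.Agent.MWLE

theorem cp_succ (s k : ℕ) : cp s (k + 1) = cp s k ++ [pin (s + k), con (s + k), con (s + k)] := by
  unfold cp
  rw [List.range_succ, List.flatMap_append]
  simp

theorem mem_cp {s k c : ℕ} (h : c ∈ cp s k) : ∃ i < k, c = pin (s + i) ∨ c = con (s + i) := by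
  unfold cp at h
  rw [List.mem_flatMap] at h
  obtain ⟨i, hi, h⟩ := h
  rw [List.mem_range] at hi
  simp only [List.mem_cons, List.not_mem_nil, or_false] at h
  exact ⟨i, hi, by tauto⟩

theorem mem_tl {σ : List ℕ} {c : ℕ} (h : c ∈ tl σ) : ∃ k ∈ σ, c = sep k ∨ c = pin k := by
  unfold tl at h
  rw [List.mem_flatMap] at h
  obtain ⟨i, hi, h⟩ := h
  simp only [List.mem_cons, List.not_mem_nil, or_false] at h
  exact ⟨i, hi, h⟩

theorem cp_zero (s k c : ℕ) (h2 : c % 5 ≠ 2) (h4 : c % 5 ≠ 4) : (cp s k).count c = 0 := by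
  rw [List.count_eq_zero]
  intro h
  obtain ⟨i, _, h | h⟩ := mem_cp h
  · unfold pin at h; omega
  · unfold con at h; omega

theorem tl_zero (σ : List ℕ) (c : ℕ) (h2 : c % 5 ≠ 2) (h3 : c % 5 ≠ 3) : (tl σ).count c = 0 := by
  rw [List.count_eq_zero]
  intro h
  obtain ⟨i, _, h | h⟩ := mem_tl h
  · unfold sep at h; omega
  · unfold pin at h; omega

theorem cp_con (s k j : ℕ) : (cp s k).count (con j) = if s ≤ j ∧ j < s + k then 2 else 0 := by
  induction k with
  | zero => simp [cp]
  | succ k ih =>
    rw [cp_succ, List.count_append, ih]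
    have e1 : ¬ (pin (s + k) = con j) := by unfold pin con; omega
    by_cases h : s + k = j
    · subst h
      simp [e1]
    · have e2 : ¬ (con (s + k) = con j) := by unfold con; omega
      simp only [List.count_cons, List.count_nil, beq_iff_eq, e1, e2, if_false, Nat.add_zero]
      split <;> split <;> omega

theorem wxy (hp : PrcStmt) : WxyStmt := by
  intro σ τ m S
  obtain ⟨p1, -, p3, -, p5, -⟩ := hp σ m
  have hne : σ ≠ [] := List.ne_nil_of_mem ((S.me 0).2 (by omega))
  have p5 := p5 hne
  have hcon0 : ∀ j, ¬ (con j = 0) := by intro j; unfold con; omega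
  have hcon1 : ∀ j, ¬ (con j = 1) := by intro j; unfold con; omega
  have hpin0 : ∀ j, ¬ (pin j = 0) := by intro j; unfold pin; omega
  have hpin1 : ∀ j, ¬ (pin j = 1) := by intro j; unfold pin; omega
  have hpc : ∀ i j, ¬ (pin i = con j) := by intro i j; unfold pin con; omega
  have h0c : ∀ j, ¬ (0 = con j) := by intro j; unfold con; omega
  have h1c : ∀ j, ¬ (1 = con j) := by intro j; unfold con; omega
  have wb0 : (wb m false false).count 0 = 2 := by
    unfold wb N0 Nx
    simp only [List.count_append, List.count_cons, List.count_nil, beq_iff_eq, hcon0, hpin0,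
      cp_zero _ _ 0 (by norm_num) (by norm_num), if_false, Bool.false_eq_true, Nat.add_zero]
    norm_num
  have wb1 : (wb m false false).count 1 = 2 := by
    unfold wb N0 Nx
    simp only [List.count_append, List.count_cons, List.count_nil, beq_iff_eq, hcon1, hpin1,
      cp_zero _ _ 1 (by norm_num) (by norm_num), if_false, Bool.false_eq_true, Nat.add_zero]
    norm_num
  have hcc : ∀ i j, (con i = con j) = (i = j) := by
    intro i j
    unfold con
    apply propext
    omega
  have wbc : ∀ k ≤ 2 * m + 1, (wb m false false).count (con k) = 2 := by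
    intro k hk
    unfold wb N0 Nx
    simp only [List.count_append, List.count_cons, List.count_nil, beq_iff_eq, h0c, h1c, hpc,
      cp_con, if_false, Bool.false_eq_true, Nat.add_zero, hcc]
    split_ifs <;> omega
  refine ⟨⟨?_, ?_, ?_⟩, ⟨?_, ?_, ?_⟩, ?_, ?_, ?_⟩
  · unfold wd
    rw [List.count_append, wb0, tl_zero σ 0 (by norm_num) (by norm_num)]
  · unfold nn
    rw [p5, wb0]
  · unfold nn
    rw [p3]
    unfold N0
    simp only [List.count_append, List.count_cons, List.count_nil, beq_iff_eq, hcon0, hpin0,
      cp_zero _ _ 0 (by norm_num) (by norm_num), if_false, Nat.add_zero]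
    norm_num
  · unfold wd
    rw [List.count_append, wb1, tl_zero σ 1 (by norm_num) (by norm_num)]
  · unfold nn
    rw [p5, wb1]
  · unfold nn
    rw [p1]
    simp only [List.count_cons, List.count_nil, beq_iff_eq, hcon1, if_false, Nat.add_zero]
    norm_num
  · intro k hk
    constructor
    · unfold wd
      rw [List.count_append, wbc k hk, tl_zero σ (con k) (by unfold con; omega)
        (by unfold con; omega)]
    · unfold nn
      rw [p5, wbc k hk]
  · intro k hk
    unfold nn
    rw [p3]
    unfold N0
    simp only [List.count_append, List.count_cons, List.count_nil, beq_iff_eq, h0c, h1c, hpc,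
      cp_con, if_false, Nat.add_zero, hcc]
    split_ifs <;> omega
  · intro c hc h4
    unfold wd wb N0 Nx at hc
    simp only [List.mem_append, List.mem_cons, List.not_mem_nil, or_false, Bool.false_eq_true,
      if_false, false_or] at hc
    have hp4 : ∀ k, c ≠ pin k := by intro k h; unfold pin at h; omega
    have hs4 : ∀ k, c ≠ sep k := by intro k h; unfold sep at h; omega
    rcases hc with (((h | h | h | h | h) | h | (h | h | h | h | h | h) | h) | h)
    · omega
    · exact ⟨0, by omega, h⟩
    · exact ⟨0, by omega, h⟩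
    · exact absurd h (hp4 _)
    · obtain ⟨i, hi, h | h⟩ := mem_cp h
      · exact absurd h (hp4 _)
      · exact ⟨1 + i, by omega, h⟩
    · omega
    · exact ⟨m + 1, by omega, h⟩
    · exact ⟨m + 1, by omega, h⟩
    · exact absurd h (hp4 _)
    · omega
    · obtain ⟨i, hi, h | h⟩ := mem_cp h
      · exact absurd h (hp4 _)
      · exact ⟨m + 2 + i, by omega, h⟩
    · exact absurd h (hp4 _)
    · omega
    · obtain ⟨k, _, h | h⟩ := mem_tl h
      · exact absurd h (hs4 _)
      · exact absurd h (hp4 _)

end Pool.Agent.MWLE.H30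

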